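import Pool.Agent.H840.KP.Stm
import Pool.Agent.H840.AS.Gdct
import Pool.Agent.H671.CNT

set_option autoImplicit false

/-!
# S_INT2 and S_CNT2: the double integrals of `log |s - t|` times rational functions
-/

open Complex Filter Topology MeasureTheory Set Metric

open scoped ComplexConjugate

namespace Pool.Agent.H183.KP

/-- `1 / (u ^ (3/2) (1 + u))`. -/
noncomputable def kb (u : ℝ) : ℝ := (Real.sqrt u ^ 3 * (1 + u))⁻¹

theorem kb_nonneg {u : ℝ} (hu : 0 ≤ u) : 0 ≤ kb u := by unfold kb; positivity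

theorem measurable_kb : Measurable kb := by
  unfold kb
  fun_prop

theorem continuousAt_kb {u : ℝ} (hu : 0 < u) : ContinuousAt kb u := by
  unfold kb
  have h1 := Real.sqrt_pos.2 hu
  refine ContinuousAt.inv₀ (by fun_prop) (by positivity)

theorem integrable_kb : Integrable fun x : ℂ => kb ‖x‖ := by
  have hm : Measurable fun x : ℂ => kb ‖x‖ := measurable_kb.comp measurable_norm
  have h1 : IntegrableOn (fun x : ℂ => kb ‖x‖) (ball 0 1) := by
    refine Integrable.mono' (Pool.Agent.H840.KO.integrableOn_ball_zero (α := 3 / 2) (R := 1)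
      (by norm_num)) hm.aestronglyMeasurable.restrict ?_
    refine Filter.Eventually.of_forall fun x => ?_
    rw [Real.norm_of_nonneg (kb_nonneg (norm_nonneg _))]
    have h0 : 0 ≤ ‖x‖ := norm_nonneg x
    rcases h0.eq_or_lt with h | h
    · rw [← h]
      unfold kb
      simp
    · rw [Real.rpow_neg h0]
      unfold kb
      have h2 : ‖x‖ ^ ((3 / 2 : ℝ)) = Real.sqrt ‖x‖ ^ 3 := by
        rw [Real.sqrt_eq_rpow, ← Real.rpow_natCast, ← Real.rpow_mul h0]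
        norm_num
      rw [h2]
      have h3 := Real.sqrt_pos.2 h
      apply inv_anti₀ (by positivity)
      exact le_mul_of_one_le_right (by positivity) (by linarith)
  have h3 : IntegrableOn (fun x : ℂ => kb ‖x‖) (ball 0 1)ᶜ := by
    refine Integrable.mono' (Pool.Agent.H840.KO.integrableOn_compl_ball (α := 5 / 2) (by norm_num)
      (by norm_num : (0:ℝ) < 1)) hm.aestronglyMeasurable.restrict ?_
    refine (ae_restrict_iff' measurableSet_ball.compl).2 (Filter.Eventually.of_forall fun x hx => ?_)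
    have hx1 : 1 ≤ ‖x‖ := by simpa using hx
    rw [Real.norm_of_nonneg (kb_nonneg (norm_nonneg _)), Real.rpow_neg (norm_nonneg _)]
    have h4 : ‖x‖ ^ (5 / 2 : ℝ) = Real.sqrt ‖x‖ ^ 3 * ‖x‖ := by
      have h5 : (5 / 2 : ℝ) = 3 / 2 + 1 := by norm_num
      have h0 : 0 ≤ ‖x‖ := norm_nonneg x
      rw [h5, Real.rpow_add (by linarith), Real.rpow_one]
      congr 1
      rw [Real.sqrt_eq_rpow, ← Real.rpow_natCast, ← Real.rpow_mul h0]
      norm_num
    rw [h4]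
    unfold kb
    have h6 := Real.sqrt_pos.2 (by linarith : 0 < ‖x‖)
    apply inv_anti₀ (by positivity)
    exact mul_le_mul_of_nonneg_left (by linarith) (by positivity)
  have := h1.union h3
  rwa [union_compl_self, integrableOn_univ] at this

/-- `1 / (u (1 + u) ^ 2)`. -/
noncomputable def kc (u : ℝ) : ℝ := (u * (1 + u) ^ 2)⁻¹

theorem kc_nonneg {u : ℝ} (hu : 0 ≤ u) : 0 ≤ kc u := by unfold kc; positivity

theorem kc_le_kb {u : ℝ} (hu : 0 < u) : kc u ≤ kb u := by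
  unfold kc kb
  have h1 := Real.sqrt_pos.2 hu
  have h2 : Real.sqrt u ^ 2 = u := Real.sq_sqrt hu.le
  apply inv_anti₀ (by positivity)
  have h3 : Real.sqrt u ≤ 1 + u := by nlinarith [sq_nonneg (Real.sqrt u - 1)]
  calc Real.sqrt u ^ 3 * (1 + u) = u * (1 + u) * Real.sqrt u := by
        rw [pow_succ, h2]; ring
    _ ≤ u * (1 + u) * (1 + u) := by gcongr
    _ = u * (1 + u) ^ 2 := by ring

theorem sqrt_kc_le_kb {u : ℝ} (hu : 0 < u) : Real.sqrt (1 + u) * kc u ≤ kb u := by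
  unfold kc kb
  have h1 := Real.sqrt_pos.2 hu
  have h1' := Real.sqrt_pos.2 (by linarith : 0 < 1 + u)
  have h2 : Real.sqrt u ^ 2 = u := Real.sq_sqrt hu.le
  have h3 : Real.sqrt (1 + u) ^ 2 = 1 + u := Real.sq_sqrt (by linarith)
  have h4 : Real.sqrt u ≤ Real.sqrt (1 + u) := Real.sqrt_le_sqrt (by linarith)
  rw [← div_eq_mul_inv, div_le_iff₀ (by positivity), inv_mul_eq_div, le_div_iff₀ (by positivity)]
  calc Real.sqrt (1 + u) * (Real.sqrt u ^ 3 * (1 + u)) =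
        u * (1 + u) * (Real.sqrt u * Real.sqrt (1 + u)) := by
        rw [pow_succ, h2]; ring
    _ ≤ u * (1 + u) * (Real.sqrt (1 + u) * Real.sqrt (1 + u)) := by gcongr
    _ = u * (1 + u) ^ 2 := by rw [← sq, h3]; ring

/-- the basic bound of the singularity -/
theorem sing {u v : ℝ} (hu : 0 < u) (hv : 0 < v) :
    (Real.sqrt v)⁻¹ * kc u ≤ kb u + 2 * kb v := by
  have hsu := Real.sqrt_pos.2 hu
  have hsv := Real.sqrt_pos.2 hv
  have hu2 : Real.sqrt u ^ 2 = u := Real.sq_sqrt hu.le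
  have hv2 : Real.sqrt v ^ 2 = v := Real.sq_sqrt hv.le
  have hkb := kb_nonneg hu.le
  have hkbv := kb_nonneg hv.le
  rcases le_total 1 v with h | h
  · have h1 : (Real.sqrt v)⁻¹ ≤ 1 := inv_le_one_of_one_le₀ (Real.one_le_sqrt.2 h)
    have h2 := kc_le_kb hu
    have h3 := kc_nonneg hu.le
    nlinarith
  · rcases le_total u v with h' | h'
    · have h1 : (Real.sqrt v)⁻¹ * kc u ≤ kb u := by
        unfold kc kb
        rw [← mul_inv]
        apply inv_anti₀ (by positivity)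
        have h4 : Real.sqrt u ≤ Real.sqrt v := Real.sqrt_le_sqrt h'
        calc Real.sqrt u ^ 3 * (1 + u) = u * (1 + u) * Real.sqrt u := by
              rw [pow_succ, hu2]; ring
          _ ≤ u * (1 + u) * Real.sqrt v := by gcongr
          _ ≤ u * (1 + u) * Real.sqrt v * (1 + u) :=
              le_mul_of_one_le_right (by positivity) (by linarith)
          _ = _ := by ring
      linarith
    · have h1 : (Real.sqrt v)⁻¹ * kc u ≤ 2 * kb v := by
        unfold kc kb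
        rw [← mul_inv, ← div_eq_mul_inv, inv_eq_one_div, div_le_div_iff₀ (by positivity)
          (by positivity)]
        calc 1 * (Real.sqrt v ^ 3 * (1 + v)) = Real.sqrt v * v * (1 + v) := by
              rw [pow_succ, hv2]; ring
          _ ≤ Real.sqrt v * u * (1 + 1) := by gcongr
          _ ≤ Real.sqrt v * u * (1 + 1) * (1 + u) ^ 2 :=
              le_mul_of_one_le_right (by positivity) (by nlinarith)
          _ = _ := by ring
      linarith

theorem abs_log_le {v : ℝ} (hv : 0 < v) :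
    |Real.log v| ≤ 2 * Real.sqrt v + 2 * (Real.sqrt v)⁻¹ := by
  have hsv := Real.sqrt_pos.2 hv
  have h1 : Real.log v = 2 * Real.log (Real.sqrt v) := by rw [Real.log_sqrt hv.le]; ring
  have h2 := Real.log_le_sub_one_of_pos hsv
  have h3 := Real.log_le_sub_one_of_pos (inv_pos.2 hsv)
  rw [Real.log_inv] at h3
  have h4 := inv_pos.2 hsv
  rw [h1, abs_le]
  constructor <;> linarith

theorem three {M u u' v : ℝ} (hM : 0 ≤ M) (hu : 0 < u) (hu' : 0 < u') (hv : 0 < v)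
    (h : v ≤ M * ((1 + u) * (1 + u'))) :
    |Real.log v| * (kc u * kc u') ≤
      (2 * Real.sqrt M + 4) * (kb u * kb u' + kb v * kb u') := by
  have h1 := abs_log_le hv
  have hc := kc_nonneg hu.le
  have hc' := kc_nonneg hu'.le
  have hb := kb_nonneg hu.le
  have hb' := kb_nonneg hu'.le
  have hbv := kb_nonneg hv.le
  have hsM := Real.sqrt_nonneg M
  have h2 : Real.sqrt v ≤ Real.sqrt M * (Real.sqrt (1 + u) * Real.sqrt (1 + u')) := by
    rw [← Real.sqrt_mul (by linarith : (0:ℝ) ≤ 1 + u), ← Real.sqrt_mul hM]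
    exact Real.sqrt_le_sqrt h
  have h3 : Real.sqrt v * (kc u * kc u') ≤ Real.sqrt M * (kb u * kb u') := by
    calc Real.sqrt v * (kc u * kc u') ≤
          Real.sqrt M * (Real.sqrt (1 + u) * Real.sqrt (1 + u')) * (kc u * kc u') := by gcongr
      _ = Real.sqrt M * ((Real.sqrt (1 + u) * kc u) * (Real.sqrt (1 + u') * kc u')) := by ring
      _ ≤ Real.sqrt M * (kb u * kb u') := by
          gcongr
          · exact sqrt_kc_le_kb hu
          · exact sqrt_kc_le_kb hu'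
  have h4 : (Real.sqrt v)⁻¹ * (kc u * kc u') ≤ (kb u + 2 * kb v) * kb u' := by
    calc (Real.sqrt v)⁻¹ * (kc u * kc u') = ((Real.sqrt v)⁻¹ * kc u) * kc u' := by ring
      _ ≤ (kb u + 2 * kb v) * kb u' := by
          gcongr
          · exact sing hu hv
          · exact kc_le_kb hu'
  calc |Real.log v| * (kc u * kc u') ≤
        (2 * Real.sqrt v + 2 * (Real.sqrt v)⁻¹) * (kc u * kc u') := by gcongr
    _ = 2 * (Real.sqrt v * (kc u * kc u')) + 2 * ((Real.sqrt v)⁻¹ * (kc u * kc u')) := by ring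
    _ ≤ 2 * (Real.sqrt M * (kb u * kb u')) + 2 * ((kb u + 2 * kb v) * kb u') := by gcongr
    _ ≤ _ := by
        have h5 := mul_nonneg hb hb'
        have h6 := mul_nonneg hbv hb'
        have h7 := mul_nonneg hsM h6
        nlinarith

/-- The bound in one variable. -/
theorem bound1 {δ R : ℝ} (hδ : 0 < δ) (hR : 0 ≤ R) :
    ∃ C : ℝ, 0 ≤ C ∧ ∀ e : Fin 5 → ℂ, (∀ k l, k ≠ l → δ ≤ ‖e k - e l‖) → (∀ k, ‖e k‖ ≤ R) →
      ∀ x, (∀ k, x ≠ e k) → ∃ k, ∀ p q : ℕ, p ≤ 1 → q ≤ 1 →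
        ‖x ^ p * conj x ^ q‖ / ‖∏ k, (x - e k)‖ ≤ C * kc ‖x - e k‖ := by
  obtain ⟨γ, hγ⟩ : ∃ γ : ℝ, γ = δ / (2 + δ) := ⟨_, rfl⟩
  have hγ0 : 0 < γ := by rw [hγ]; positivity
  refine ⟨(1 + R) ^ 2 / γ ^ 4, by positivity, fun e hsep hbd x hx => ?_⟩
  obtain ⟨k0, -, hk0⟩ := Finset.exists_min_image Finset.univ (fun k => ‖x - e k‖)
    ⟨0, Finset.mem_univ _⟩
  refine ⟨k0, fun p q hp hq => ?_⟩
  obtain ⟨U, hU⟩ : ∃ U : ℝ, U = ‖x - e k0‖ := ⟨_, rfl⟩
  have hU0 : 0 < U := by rw [hU]; exact norm_pos_iff.2 (sub_ne_zero.2 (hx k0))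
  -- distances from below
  have h1 : ∀ l, l ≠ k0 → γ * (1 + U) ≤ ‖x - e l‖ := by
    intro l hl
    have h2 : U ≤ ‖x - e l‖ := hU ▸ hk0 l (Finset.mem_univ _)
    have h3 := hsep k0 l (Ne.symm hl)
    have h4 : ‖e k0 - e l‖ ≤ ‖x - e l‖ + ‖x - e k0‖ := by
      calc ‖e k0 - e l‖ = ‖(x - e l) - (x - e k0)‖ := by congr 1; ring
        _ ≤ _ := norm_sub_le _ _
    rw [← hU] at h4
    have h5 : δ / 2 ≤ ‖x - e l‖ := by linarith
    rw [hγ, div_mul_eq_mul_div, div_le_iff₀ (by positivity)]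
    nlinarith
  -- the denominator
  have h5 : U * (γ * (1 + U)) ^ 4 ≤ ‖∏ k, (x - e k)‖ := by
    rw [norm_prod, ← Finset.mul_prod_erase Finset.univ _ (Finset.mem_univ k0), ← hU]
    refine mul_le_mul_of_nonneg_left ?_ hU0.le
    calc (γ * (1 + U)) ^ 4 = ∏ l ∈ Finset.univ.erase k0, (γ * (1 + U)) := by
          rw [Finset.prod_const, Finset.card_erase_of_mem (Finset.mem_univ _)]; simp
      _ ≤ _ := Finset.prod_le_prod (fun _ _ => by positivity)
          fun l hl => h1 l (Finset.ne_of_mem_erase hl)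
  -- the numerator
  have h6 : ‖x ^ p * conj x ^ q‖ ≤ ((1 + R) * (1 + U)) ^ 2 := by
    have hxU : 1 + ‖x‖ ≤ (1 + R) * (1 + U) := by
      have h7 : ‖x‖ ≤ ‖x - e k0‖ + ‖e k0‖ := by
        calc ‖x‖ = ‖(x - e k0) + e k0‖ := by congr 1; ring
          _ ≤ _ := norm_add_le _ _
      have := hbd k0
      rw [← hU] at h7
      nlinarith
    have hx0 := norm_nonneg x
    have hpw : ∀ p : ℕ, p ≤ 1 → ‖x‖ ^ p ≤ (1 + R) * (1 + U) := by
      intro p hp
      interval_cases p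
      · simp; linarith
      · simp; linarith
    rw [norm_mul, norm_pow, norm_pow, Complex.norm_conj, _root_.sq]
    exact mul_le_mul (hpw p hp) (hpw q hq) (by positivity) (by positivity)
  have hden : 0 < ‖∏ k, (x - e k)‖ := lt_of_lt_of_le (by positivity) h5
  rw [← hU]
  calc ‖x ^ p * conj x ^ q‖ / ‖∏ k, (x - e k)‖
      ≤ ((1 + R) * (1 + U)) ^ 2 / (U * (γ * (1 + U)) ^ 4) := by gcongr
    _ = (1 + R) ^ 2 / γ ^ 4 * kc U := by
        unfold kc
        field_simp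

/-- The integrand. -/
noncomputable def F2 (p q p' q' : ℕ) (e : Fin 5 → ℂ) (z : ℂ × ℂ) : ℂ :=
  ((Real.log ‖z.1 - z.2‖ / (‖∏ k, (z.1 - e k)‖ * ‖∏ k, (z.2 - e k)‖) : ℝ) : ℂ) *
      ((z.1 ^ p * conj z.1 ^ q) * (z.2 ^ p' * conj z.2 ^ q'))

theorem measurable_F2 (p q p' q' : ℕ) (e : Fin 5 → ℂ) : Measurable (F2 p q p' q' e) := by
  unfold F2
  fun_prop

/-- The dominating function. -/
noncomputable def G2 (C : ℝ) (e : Fin 5 → ℂ) (z : ℂ × ℂ) : ℝ :=
  C * ((∑ k, ∑ l, kb ‖z.1 - e k‖ * kb ‖z.2 - e l‖) + ∑ l, kb ‖z.1 - z.2‖ * kb ‖z.2 - e l‖)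

theorem integrable_kb_sub (c : ℂ) : Integrable fun x : ℂ => kb ‖x - c‖ :=
  integrable_kb.comp_sub_right c

theorem integral_kb_sub (c : ℂ) : ∫ x : ℂ, kb ‖x - c‖ = ∫ x : ℂ, kb ‖x‖ :=
  integral_sub_right_eq_self (fun x : ℂ => kb ‖x‖) _

theorem int1 (c d : ℂ) : Integrable fun z : ℂ × ℂ => kb ‖z.1 - c‖ * kb ‖z.2 - d‖ :=
  (integrable_kb_sub c).mul_prod (integrable_kb_sub d)

theorem int1v (c d : ℂ) : ∫ z : ℂ × ℂ, kb ‖z.1 - c‖ * kb ‖z.2 - d‖ = (∫ x : ℂ, kb ‖x‖) ^ 2 := by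
  have := integral_prod_mul (μ := (volume : Measure ℂ)) (ν := (volume : Measure ℂ))
    (fun x : ℂ => kb ‖x - c‖) (fun x : ℂ => kb ‖x - d‖)
  rw [integral_kb_sub, integral_kb_sub, ← sq] at this
  exact this

theorem mp_sub : MeasurePreserving (fun z : ℂ × ℂ => (z.1 - z.2, z.2)) volume volume :=
  measurePreserving_sub_prod (volume : Measure ℂ) (volume : Measure ℂ)

/-- the shear -/
noncomputable def shear : ℂ × ℂ ≃ₜ ℂ × ℂ where
  toFun z := (z.1 - z.2, z.2)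
  invFun z := (z.1 + z.2, z.2)
  left_inv z := by simp
  right_inv z := by simp
  continuous_toFun := by fun_prop
  continuous_invFun := by fun_prop

theorem int2 (d : ℂ) : Integrable fun z : ℂ × ℂ => kb ‖z.1 - z.2‖ * kb ‖z.2 - d‖ := by
  have h := int1 0 d
  have h2 := (mp_sub.integrable_comp_emb shear.measurableEmbedding
    (g := fun z : ℂ × ℂ => kb ‖z.1 - 0‖ * kb ‖z.2 - d‖)).2 h
  simpa [Function.comp_def] using h2

theorem int2v (d : ℂ) : ∫ z : ℂ × ℂ, kb ‖z.1 - z.2‖ * kb ‖z.2 - d‖ = (∫ x : ℂ, kb ‖x‖) ^ 2 := by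
  have h := int1v 0 d
  rw [← h]
  have h2 := mp_sub.integral_comp shear.measurableEmbedding
    (fun z : ℂ × ℂ => kb ‖z.1 - 0‖ * kb ‖z.2 - d‖)
  simpa using h2

theorem integrable_G2 (C : ℝ) (e : Fin 5 → ℂ) : Integrable (G2 C e) := by
  unfold G2
  refine Integrable.const_mul (Integrable.add ?_ ?_) C
  · exact integrable_finsetSum _ fun k _ => integrable_finsetSum _ fun l _ => int1 (e k) (e l)
  · exact integrable_finsetSum _ fun l _ => int2 (e l)

theorem integral_G2 (C : ℝ) (e : Fin 5 → ℂ) : ∫ z, G2 C e z = C * (30 * (∫ x : ℂ, kb ‖x‖) ^ 2) := by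
  unfold G2
  rw [integral_const_mul, integral_add
    (integrable_finsetSum _ fun k _ => integrable_finsetSum _ fun l _ => int1 (e k) (e l))
    (integrable_finsetSum _ fun l _ => int2 (e l)),
    integral_finsetSum _ fun k _ => integrable_finsetSum _ fun l _ => int1 (e k) (e l),
    integral_finsetSum _ fun l _ => int2 (e l)]
  have h : ∀ k, ∫ z : ℂ × ℂ, ∑ l, kb ‖z.1 - e k‖ * kb ‖z.2 - e l‖ =
      5 * (∫ x : ℂ, kb ‖x‖) ^ 2 := by
    intro k
    rw [integral_finsetSum _ fun l _ => int1 (e k) (e l)]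
    simp only [int1v]
    simp
  simp only [h, int2v]
  simp only [Finset.sum_const, Finset.card_univ, Fintype.card_fin, nsmul_eq_mul]
  push_cast
  ring

/-- The bound in two variables. -/
theorem bound2 {δ R : ℝ} (hδ : 0 < δ) (hR : 0 ≤ R) :
    ∃ C : ℝ, 0 ≤ C ∧ ∀ e : Fin 5 → ℂ, (∀ k l, k ≠ l → δ ≤ ‖e k - e l‖) → (∀ k, ‖e k‖ ≤ R) →
      ∀ z : ℂ × ℂ, (∀ k, z.1 ≠ e k) → (∀ k, z.2 ≠ e k) → z.1 ≠ z.2 →
      ∀ p q p' q' : ℕ, p ≤ 1 → q ≤ 1 → p' ≤ 1 → q' ≤ 1 →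
        ‖F2 p q p' q' e z‖ ≤ G2 C e z := by
  obtain ⟨C, hC, hb⟩ := bound1 hδ hR
  refine ⟨C ^ 2 * (2 * Real.sqrt (1 + 2 * R) + 4), by positivity, ?_⟩
  intro e hsep hbd z hz1 hz2 hz p q p' q' hp hq hp' hq'
  obtain ⟨k, hk⟩ := hb e hsep hbd z.1 hz1
  obtain ⟨l, hl⟩ := hb e hsep hbd z.2 hz2
  have h1 := hk p q hp hq
  have h2 := hl p' q' hp' hq'
  obtain ⟨u, hu⟩ : ∃ u : ℝ, u = ‖z.1 - e k‖ := ⟨_, rfl⟩
  obtain ⟨u', hu'⟩ : ∃ u' : ℝ, u' = ‖z.2 - e l‖ := ⟨_, rfl⟩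
  obtain ⟨v, hv⟩ : ∃ v : ℝ, v = ‖z.1 - z.2‖ := ⟨_, rfl⟩
  have hu0 : 0 < u := by rw [hu]; exact norm_pos_iff.2 (sub_ne_zero.2 (hz1 k))
  have hu0' : 0 < u' := by rw [hu']; exact norm_pos_iff.2 (sub_ne_zero.2 (hz2 l))
  have hv0 : 0 < v := by rw [hv]; exact norm_pos_iff.2 (sub_ne_zero.2 hz)
  have h3 : v ≤ (1 + 2 * R) * ((1 + u) * (1 + u')) := by
    have h4 : v ≤ u + ‖e k‖ + ‖e l‖ + u' := by
      rw [hv, hu, hu']
      calc ‖z.1 - z.2‖ = ‖(z.1 - e k) + e k - e l - (z.2 - e l)‖ := by congr 1; ring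
        _ ≤ ‖(z.1 - e k) + e k - e l‖ + ‖z.2 - e l‖ := norm_sub_le _ _
        _ ≤ ‖(z.1 - e k) + e k‖ + ‖e l‖ + ‖z.2 - e l‖ := by gcongr; exact norm_sub_le _ _
        _ ≤ _ := by gcongr; exact norm_add_le _ _
    have h5 := hbd k
    have h6 := hbd l
    have h7 := mul_pos hu0 hu0'
    nlinarith [mul_nonneg hR hu0.le, mul_nonneg hR hu0'.le, mul_nonneg hR h7.le]
  rw [← hu] at h1
  rw [← hu'] at h2
  have h4 := three (by linarith : 0 ≤ 1 + 2 * R) hu0 hu0' hv0 h3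
  have h5 : kb u * kb u' + kb v * kb u' ≤
      (∑ k, ∑ l, kb ‖z.1 - e k‖ * kb ‖z.2 - e l‖) + ∑ l, kb ‖z.1 - z.2‖ * kb ‖z.2 - e l‖ := by
    have hn : ∀ w : ℂ, 0 ≤ kb ‖w‖ := fun w => kb_nonneg (norm_nonneg w)
    rw [hu, hu', hv]
    apply add_le_add
    · calc kb ‖z.1 - e k‖ * kb ‖z.2 - e l‖ ≤ ∑ l, kb ‖z.1 - e k‖ * kb ‖z.2 - e l‖ :=
            Finset.single_le_sum (f := fun l => kb ‖z.1 - e k‖ * kb ‖z.2 - e l‖)
              (fun l _ => mul_nonneg (hn _) (hn _)) (Finset.mem_univ l)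
        _ ≤ _ := Finset.single_le_sum (f := fun k => ∑ l, kb ‖z.1 - e k‖ * kb ‖z.2 - e l‖)
              (fun k _ => Finset.sum_nonneg fun l _ => mul_nonneg (hn _) (hn _))
              (Finset.mem_univ k)
    · exact Finset.single_le_sum (f := fun l => kb ‖z.1 - z.2‖ * kb ‖z.2 - e l‖)
        (fun l _ => mul_nonneg (hn _) (hn _)) (Finset.mem_univ l)
  have hsq := Real.sqrt_nonneg (1 + 2 * R)
  have hc := kc_nonneg hu0.le
  have hc' := kc_nonneg hu0'.le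
  unfold F2 G2
  rw [norm_mul, Complex.norm_real, Real.norm_eq_abs, abs_div, abs_mul, abs_norm, abs_norm,
    norm_mul (z.1 ^ p * conj z.1 ^ q), ← hv]
  calc |Real.log v| / (‖∏ k, (z.1 - e k)‖ * ‖∏ k, (z.2 - e k)‖) *
        (‖z.1 ^ p * conj z.1 ^ q‖ * ‖z.2 ^ p' * conj z.2 ^ q'‖)
      = |Real.log v| * ((‖z.1 ^ p * conj z.1 ^ q‖ / ‖∏ k, (z.1 - e k)‖) *
          (‖z.2 ^ p' * conj z.2 ^ q'‖ / ‖∏ k, (z.2 - e k)‖)) := by
        rw [div_mul_div_comm, div_mul_eq_mul_div, mul_div_assoc]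
    _ ≤ |Real.log v| * ((C * kc u) * (C * kc u')) := by gcongr
    _ = C ^ 2 * (|Real.log v| * (kc u * kc u')) := by ring
    _ ≤ C ^ 2 * ((2 * Real.sqrt (1 + 2 * R) + 4) * (kb u * kb u' + kb v * kb u')) := by gcongr
    _ ≤ C ^ 2 * ((2 * Real.sqrt (1 + 2 * R) + 4) *
        ((∑ k, ∑ l, kb ‖z.1 - e k‖ * kb ‖z.2 - e l‖) +
          ∑ l, kb ‖z.1 - z.2‖ * kb ‖z.2 - e l‖)) := by gcongr
    _ = _ := by rw [hv]; ring

/-- almost every pair of points is good -/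
theorem ae_good (a : Fin 5 → ℂ) :
    ∀ᵐ z : ℂ × ℂ, (∀ k, z.1 ≠ a k) ∧ (∀ k, z.2 ≠ a k) ∧ z.1 ≠ z.2 := by
  have h1 : ∀ᵐ z : ℂ × ℂ, ∀ k, z.1 ≠ a k :=
    Measure.quasiMeasurePreserving_fst.ae (Pool.Agent.H671.CNT.ae_ne a)
  have h2 : ∀ᵐ z : ℂ × ℂ, ∀ k, z.2 ≠ a k :=
    Measure.quasiMeasurePreserving_snd.ae (Pool.Agent.H671.CNT.ae_ne a)
  have h3 : ∀ᵐ z : ℂ × ℂ, z.1 - z.2 ≠ 0 := by
    have h4 : ∀ᵐ z : ℂ × ℂ, z.1 ≠ 0 :=
      Measure.quasiMeasurePreserving_fst.ae (Measure.ae_ne volume (0 : ℂ))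
    exact mp_sub.quasiMeasurePreserving.ae h4
  filter_upwards [h1, h2, h3] with z hz1 hz2 hz3
  exact ⟨hz1, hz2, sub_ne_zero.1 hz3⟩

theorem int2_main : Pool.Agent.H840.KP.S_INT2 := by
  intro a p q p' q' ha hp hq hp' hq'
  obtain ⟨δ, R, hδ, hR, hev⟩ := Pool.Agent.H671.CNT.eventually_sep ha
  obtain ⟨C, hC, hb⟩ := bound2 hδ hR
  have haS := hev.self_of_nhds
  refine (integrable_G2 C a).mono' (measurable_F2 p q p' q' a).aestronglyMeasurable ?_
  filter_upwards [ae_good a] with z hz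
  exact hb a haS.1 haS.2 z hz.1 hz.2.1 hz.2.2 p q p' q' hp hq hp' hq'

theorem cnt2_main : Pool.Agent.H840.KP.S_CNT2 := by
  intro a p q p' q' ha hp hq hp' hq'
  obtain ⟨δ, R, hδ, hR, hev⟩ := Pool.Agent.H671.CNT.eventually_sep ha
  obtain ⟨C, hC, hb⟩ := bound2 hδ hR
  have haS := hev.self_of_nhds
  change Tendsto (fun e : Fin 5 → ℂ => ∫ z : ℂ × ℂ, F2 p q p' q' e z) (𝓝 a)
    (𝓝 (∫ z : ℂ × ℂ, F2 p q p' q' a z))
  refine Pool.Agent.H840.AS.gdct (G := fun e => G2 C e) (g := G2 C a)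
    (Filter.Eventually.of_forall fun e => (measurable_F2 p q p' q' e).aestronglyMeasurable)
    (Filter.Eventually.of_forall fun e => integrable_G2 C e) (integrable_G2 C a) ?_ ?_ ?_ ?_ ?_
  · filter_upwards [hev] with e he
    filter_upwards [ae_good e] with z hz
    exact hb e he.1 he.2 z hz.1 hz.2.1 hz.2.2 p q p' q' hp hq hp' hq'
  · filter_upwards [ae_good a] with z hz
    exact hb a haS.1 haS.2 z hz.1 hz.2.1 hz.2.2 p q p' q' hp hq hp' hq'
  · filter_upwards [ae_good a] with z hz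
    have hz1 : ∀ k, z.1 - a k ≠ 0 := fun k => sub_ne_zero.2 (hz.1 k)
    have hz2 : ∀ k, z.2 - a k ≠ 0 := fun k => sub_ne_zero.2 (hz.2.1 k)
    have h1 : ContinuousAt (fun e : Fin 5 → ℂ => F2 p q p' q' e z) a := by
      unfold F2
      have h3 : ∀ w : ℂ, ContinuousAt (fun e : Fin 5 → ℂ => ‖∏ k, (w - e k)‖) a := by
        intro w
        have hk : ∀ k : Fin 5, ContinuousAt (fun e : Fin 5 → ℂ => w - e k) a := fun k =>
          (continuous_const.sub (continuous_apply k)).continuousAt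
        refine ContinuousAt.norm ?_
        exact tendsto_finsetProd _ fun k _ => hk k
      have h5 : ‖∏ k, (z.1 - a k)‖ * ‖∏ k, (z.2 - a k)‖ ≠ 0 :=
        mul_ne_zero (norm_ne_zero_iff.2 (Finset.prod_ne_zero_iff.2 fun k _ => hz1 k))
          (norm_ne_zero_iff.2 (Finset.prod_ne_zero_iff.2 fun k _ => hz2 k))
      have h7 := (continuousAt_const (y := Real.log ‖z.1 - z.2‖)).div
        ((h3 z.1).mul (h3 z.2)) h5
      exact (Complex.continuous_ofReal.continuousAt.comp h7).mul continuousAt_const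
    exact h1
  · filter_upwards [ae_good a] with z hz
    have h0 : ∀ w : ℂ, (∀ k, w ≠ a k) → ∀ k,
        ContinuousAt (fun e : Fin 5 → ℂ => kb ‖w - e k‖) a := by
      intro w hw k
      have h2 : ContinuousAt (fun e : Fin 5 → ℂ => ‖w - e k‖) a :=
        (continuous_const.sub (continuous_apply k)).norm.continuousAt
      have h3 := continuousAt_kb (norm_pos_iff.2 (sub_ne_zero.2 (hw k)))
      exact ContinuousAt.comp (f := fun e : Fin 5 → ℂ => ‖w - e k‖) h3 h2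
    have h1 : ContinuousAt (fun e : Fin 5 → ℂ => G2 C e z) a := by
      unfold G2
      refine continuousAt_const.mul (ContinuousAt.add ?_ ?_)
      · exact tendsto_finsetSum _ fun k _ => tendsto_finsetSum _ fun l _ =>
          (h0 z.1 hz.1 k).mul (h0 z.2 hz.2.1 l)
      · exact tendsto_finsetSum _ fun l _ => continuousAt_const.mul (h0 z.2 hz.2.1 l)
    exact h1
  · simp only [integral_G2]
    exact tendsto_const_nhds

end Pool.Agent.H183.KP
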